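import Pool.Agent.Lib.MP_cf0832_co.Defs
import Pool.Agent.Lib.MP_cf0832_co.Limit

/-!
Disproof of Q1 of MP_cf0832_co, with `l = 4` and `C = 1`: conditions (A), (B), (C) and the
boundedness of all theta-graph densities `s_p(H_{k,4}, G_n)` do not imply condition (D).
The limit kernel is nonzero and `n p(n) → ∞`.
-/

namespace Pool.Agent.Results.MP_cf0832_co.ThetaNotMoments

open Pool.Agent.Lib.MP_cf0832_co MeasureTheory Filter Topology
open scoped unitInterval

theorem result : ∃ (p : ℕ → ℝ) (G : (n : ℕ) → SimpleGraph (Fin n)) (κ : I → I → ℝ),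
    (∀ n, 0 < p n ∧ p n ≤ 1) ∧ Tendsto (fun n : ℕ => (n : ℝ) * p n) atTop atTop ∧
    IsKernel 1 κ ∧ ∫ z : I × I, κ z.1 z.2 = 1 / 2 ∧
    CondA p G ∧ CondB 4 p G ∧ Tendsto (fun n => dCut (G n) (p n) κ) atTop (𝓝 0) ∧
    CondTheta 4 p G ∧ ¬ CondD 4 p G :=
  ⟨pn, Gn, ker0, pn_pos, np_tendsto, ker0_isKernel, integral_ker0_pos, condA, condB,
    dCut_tendsto, condTheta, not_condD⟩

end Pool.Agent.Results.MP_cf0832_co.ThetaNotMoments
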